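import Mathlib
import Pool.Agent.HL26.Defs
import Pool.Agent.HLE.Every34

set_option autoImplicit false

open Finset

namespace Pool.Agent.Results.MP_485179_nt.EveryFamily

open Pool.Agent.HL26

/-- For all `k ≥ 1` and `ε > 0` there is `K` such that for every `A`, all large `x`, EVERY set `B`
of integers in `[0, (log x)^A]` with at least `K log x` elements and EVERY family `G` of
`(k+1)`-subsets of `B`, with `Q = x / (log x)^(k+1)` and `S(E) = 𝔖(E - min E)`:
`Q ((1 - ε) ∑_B S - 4^k ∑_{B∖G} S) ≤ ∑_G π(x, E - min E) ≤ Q ((4^k + ε) ∑_G S + ε ∑_B S)`. -/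
theorem result : ∀ k : ℕ, 1 ≤ k → ∀ ε : ℝ, 0 < ε → ∃ K : ℝ, ∀ A : ℕ,
    ∃ X : ℝ, ∀ x : ℝ, X ≤ x → ∀ B : Finset ℕ, (∀ b ∈ B, (b : ℝ) ≤ (Real.log x) ^ A) →
    K * Real.log x ≤ B.card → ∀ G : Finset (Finset ℕ), G ⊆ B.powersetCard (k + 1) →
      (x / (Real.log x) ^ (k + 1)) *
        ((1 - ε) * ∑ E ∈ B.powersetCard (k + 1), singularSeries (translate0 E) -
          4 ^ k * ∑ E ∈ B.powersetCard (k + 1) \ G, singularSeries (translate0 E)) ≤
        ∑ E ∈ G, (tupleCount x (translate0 E) : ℝ) ∧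
      ∑ E ∈ G, (tupleCount x (translate0 E) : ℝ) ≤ (x / (Real.log x) ^ (k + 1)) *
        ((4 ^ k + ε) * ∑ E ∈ G, singularSeries (translate0 E) +
          ε * ∑ E ∈ B.powersetCard (k + 1), singularSeries (translate0 E)) := by
  intro k hk ε hε
  obtain ⟨K, _, h⟩ := Pool.Agent.HLE.Every34.every_family k hk ε hε
  exact ⟨K, h⟩

end Pool.Agent.Results.MP_485179_nt.EveryFamily
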