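import Mathlib
import Pool.Agent.HL26.Defs
import Pool.Agent.HLF.Defs
import Pool.Agent.HLF.Main2

set_option autoImplicit false

open Finset

namespace Pool.Agent.Results.MP_485179_nt.LinearFamilies

open Pool.Agent.HL26 Pool.Agent.HLF

open Classical in
/-- Let `k` systems of `r` affine forms `b l i + ∑ t, a l i t * y t` in `s` variables be given
(`l` is the number of the system); in each system any `m+1` of the coefficient vectors are affinely
independent. For every `H` between `K log x` and `(log x)^A` and all constant terms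
`b l i ≤ (log x)^A`, the following holds for all but at most `ε H^s` of the points `y` of `[1, H]^s`
at which the values of each system are distinct and form an admissible set: there is a set `S` of at
least `r / 4^k` indices such that in every system all `(m+1)`-subsets `E'` of the set of the values
with index in `S` have at least `c` times the Hardy-Littlewood number of prime tuples up to `x`. The
constants `c` and `K` depend on `m`, `a` and `ε` only. -/
theorem result : ∀ m k r s : ℕ, 1 ≤ m → 1 ≤ k → m + 1 ≤ r → ∀ a : Fin k → Fin r → Fin s → ℕ,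
    (∀ l, ∀ I : Fin (m + 1) ↪ Fin r,
      AffineIndependent ℚ (fun j : Fin (m + 1) => (fun t : Fin s => (a l (I j) t : ℚ)))) →
    ∀ ε : ℝ, 0 < ε → ∃ c K : ℝ, 0 < c ∧ ∀ A : ℕ, ∃ X : ℝ, ∀ x : ℝ, X ≤ x →
    ∀ (H : ℕ) (b : Fin k → Fin r → ℕ), K * Real.log x ≤ H → (H : ℝ) ≤ (Real.log x) ^ A →
    (∀ l i, (b l i : ℝ) ≤ (Real.log x) ^ A) →
    (((Fintype.piFinset (fun _ : Fin s => Finset.Icc 1 H)).filter (fun y =>
        (∀ l, Function.Injective (val (a l) (b l) y) ∧
          ∀ p : ℕ, p.Prime → nu (univ.image (val (a l) (b l) y)) p < p) ∧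
        ¬ ∃ S : Finset (Fin r), r ≤ 4 ^ k * S.card ∧
          ∀ l, ∀ E' ∈ (S.image (val (a l) (b l) y)).powersetCard (m + 1),
            c * (singularSeries (translate0 E') * (x / (Real.log x) ^ (m + 1))) ≤
              (tupleCount x (translate0 E') : ℝ))).card : ℝ) ≤ ε * (H : ℝ) ^ s := by
  intro m k r s hm hk hmr a ha ε hε
  obtain ⟨c, K, hc, h⟩ := systems m k r s hm hk hmr a ha ε hε
  refine ⟨c, K, hc, fun A => ?_⟩
  obtain ⟨X, hX⟩ := h A
  refine ⟨X, fun x hx H b h1 h2 h3 => ?_⟩
  refine le_trans (Nat.cast_le.mpr (Finset.card_le_card ?_)) (hX x hx H b h1 h2 h3)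
  intro y hy
  have h4 := Pool.Agent.HLT.f1_mem_filter _ _ _ _ hy
  exact Finset.mem_filter.mpr ⟨h4.1, h4.2⟩

end Pool.Agent.Results.MP_485179_nt.LinearFamilies
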