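import Mathlib
import Pool.Agent.HL26.Defs
import Pool.Agent.HLG.Main

set_option autoImplicit false

open Finset

namespace Pool.Agent.Results.MP_485179_nt.SharpSystems

open Pool.Agent.HL26 Pool.Agent.HLG

open Classical in
/-- Let `k` systems of `r` linear forms `∑ t, a l i t * u t` in `s` variables be given (`l` is the
number of the system); in each system any `m+1` of the coefficient vectors are affinely independent.
There are a positive integer `P` and a real number `K` such that for `x` large and every `H` between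
`K log x` and `(log x)^A` the following holds for all but at most `ε H^s` of the points `u` of
`[1, H]^s`: in each system the `r` numbers `lin P (a l) u i = P * ∑ t, a l i t * u t` are distinct,
and the sum over all sets `S` of `m+1` indices of the product over the systems of
`ratio m x {lin P (a l) u i : i ∈ S}` (number of prime tuples up to `x` with these differences divided
by the Hardy-Littlewood number) is at least `∏ j ≤ m, max (r - 4^k j) 0 / (m+1)! - ε`. -/
theorem result : ∀ m k r s : ℕ, 1 ≤ m → m + 1 ≤ r → ∀ a : Fin k → Fin r → Fin s → ℕ,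
    (∀ l, ∀ I : Fin (m + 1) ↪ Fin r,
      AffineIndependent ℚ (fun j : Fin (m + 1) => (fun t : Fin s => (a l (I j) t : ℚ)))) →
    ∀ ε : ℝ, 0 < ε → ∃ (P : ℕ) (K : ℝ), 0 < P ∧ ∀ A : ℕ, ∃ X : ℝ, ∀ x : ℝ, X ≤ x →
    ∀ H : ℕ, K * Real.log x ≤ H → (H : ℝ) ≤ (Real.log x) ^ A →
    (((Fintype.piFinset (fun _ : Fin s => Finset.Icc 1 H)).filter (fun u =>
        ¬ ((∀ l, Function.Injective (lin P (a l) u)) ∧
          (∏ j ∈ Finset.range (m + 1), max ((r:ℝ) - 4 ^ k * (j:ℝ)) 0) / ((m + 1).factorial : ℝ) - ε ≤
            ∑ S ∈ (univ : Finset (Fin r)).powersetCard (m + 1),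
              ∏ l, ratio m x (S.image (lin P (a l) u))))).card : ℝ) ≤ ε * (H : ℝ) ^ s := by
  intro m k r s hm hmr a ha ε hε
  obtain ⟨P, K, hP, h⟩ := sharp m k r s hm hmr a ha ε hε
  refine ⟨P, K, hP, fun A => ?_⟩
  obtain ⟨X, hX⟩ := h A
  refine ⟨X, fun x hx H h1 h2 => ?_⟩
  refine le_trans (Nat.cast_le.mpr (Finset.card_le_card ?_)) (hX x hx H h1 h2)
  intro u hu
  have h4 := Pool.Agent.HLT.f1_mem_filter _ _ _ _ hu
  exact Finset.mem_filter.mpr ⟨h4.1, h4.2⟩

end Pool.Agent.Results.MP_485179_nt.SharpSystems
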